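import Pool.Agent.Helper65.HF.StA

/-!
Project HF, module SEM: adding the power of the last variable.
-/

namespace Pool.Agent.Helper42.HF

open MvPolynomial Pool.Agent.Helper45 Pool.Agent.Helper65.HF

/-- The universal family: the powers of the generic forms and the power of the last variable. -/
private noncomputable def fU (k : Type) [Field k] (j N r : ℕ) (a : Fin (r + 1)) :
    MvPolynomial (Fin (N + 1)) (MvPolynomial (ℕ × ℕ) k) :=
  if (a : ℕ) < r then lf (gP k) (N + 1) (a : ℕ) ^ j else X (Fin.last N) ^ j

/-- The points. -/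
private noncomputable def Q (k : Type) [Field k] (N r : ℕ) (P : ℕ × ℕ → k) (a : Fin (r + 1))
    (s : Fin (N + 1)) : k :=
  if (a : ℕ) < r then P ((a : ℕ), (s : ℕ)) else if s = Fin.last N then 1 else 0

private lemma map_fU (k : Type) [Field k] (j N r : ℕ) (P : ℕ × ℕ → k) (a : Fin (r + 1)) :
    map (eval P) (fU k j N r a) = Gr.pw (Q k N r P) j a := by
  unfold fU Gr.pw linForm Q
  by_cases h : (a : ℕ) < r
  · rw [if_pos h, map_pow]
    unfold lf gP
    rw [map_sum]
    congr 1
    refine Finset.sum_congr rfl fun s _ => ?_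
    rw [map_mul, map_C, map_X, eval_X, if_pos h]
  · rw [if_neg h, map_pow, map_X]
    congr 1
    rw [Finset.sum_eq_single (Fin.last N)]
    · rw [if_neg h, if_pos rfl, C_1, one_mul]
    · intro s _ hs
      rw [if_neg h, if_neg hs, C_0, zero_mul]
    · intro hs
      exact absurd (Finset.mem_univ _) hs

/-- SEM. -/
theorem hSEM : Pool.Agent.Helper65.HF.sSEM := by
  intro hSPC k _ _ j N r E
  set R := MvPolynomial (ℕ × ℕ) k with hR
  set F := FractionRing R with hF
  let W : (↥(Finset.univ : Finset (Fin (r + 1))) × {v : Fin (N + 1) →₀ ℕ // v.degree = E}) →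
      MvPolynomial (Fin (N + 1)) R := fun x => fU k j N r (x.1 : Fin (r + 1)) * monomial x.2.1 1
  obtain ⟨P, hP⟩ := (hSPC k (Fin (N + 1)) (ℕ × ℕ)
    (↥(Finset.univ : Finset (Fin (r + 1))) × {v : Fin (N + 1) →₀ ℕ // v.degree = E}) W).2
  -- the side of `k`
  have hk : Submodule.span k (Set.range fun i => map (eval P) (W i)) =
      Gr.setPart (Gr.pw (Q k N r P) j) Finset.univ E := by
    rw [Gr.setPart_eq_span]
    congr 1
    congr 1
    funext x
    show map (eval P) (fU k j N r (x.1 : Fin (r + 1)) * monomial x.2.1 1) = _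
    rw [map_mul, map_fU, map_monomial, map_one]
  -- the side of `F`
  set f : Fin (r + 1) → MvPolynomial (Fin (N + 1)) F :=
    fun a => map (algebraMap R F) (fU k j N r a) with hf
  have hFs : Submodule.span F (Set.range fun i => map (algebraMap R F) (W i)) =
      Gr.setPart f Finset.univ E := by
    rw [Gr.setPart_eq_span]
    congr 1
    congr 1
    funext x
    show map (algebraMap R F) (fU k j N r (x.1 : Fin (r + 1)) * monomial x.2.1 1) = _
    rw [map_mul, map_monomial, map_one]
  have hcs : ∀ a : Fin r, f a.castSucc =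
      Gr.pw (fun (a : Fin r) (s : Fin (N + 1)) => gF k a s) j a := by
    intro a
    rw [hf]
    show map (algebraMap R F) (fU k j N r a.castSucc) = _
    unfold fU
    rw [if_pos (by simp), map_pow]
    unfold Gr.pw linForm lf gP gF
    congr 1
    rw [map_sum]
    refine Finset.sum_congr rfl fun s _ => ?_
    rw [map_mul, map_C, map_X]
    rfl
  have hlast : f (Fin.last r) = X (Fin.last N) ^ j := by
    rw [hf]
    show map (algebraMap R F) (fU k j N r (Fin.last r)) = _
    unfold fU
    rw [if_neg (by simp), map_pow, map_X]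
  have hle : Gr.setPart (Gr.pw (fun (a : Fin r) (s : Fin (N + 1)) => gF k a s) j)
      Finset.univ E ⊔ (homogeneousSubmodule (Fin (N + 1)) F E).map
        (LinearMap.mulLeft F (X (Fin.last N) ^ j)) ≤ Gr.setPart f Finset.univ E := by
    refine sup_le ?_ ?_
    · unfold Gr.setPart
      refine iSup₂_le fun a _ => ?_
      rw [← hcs a]
      exact le_iSup₂ (f := fun (i : Fin (r + 1)) (_ : i ∈ Finset.univ) =>
        (homogeneousSubmodule (Fin (N + 1)) F E).map (LinearMap.mulLeft F (f i)))
        a.castSucc (Finset.mem_univ _)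
    · rw [← hlast]
      unfold Gr.setPart
      exact le_iSup₂ (f := fun (i : Fin (r + 1)) (_ : i ∈ Finset.univ) =>
        (homogeneousSubmodule (Fin (N + 1)) F E).map (LinearMap.mulLeft F (f i)))
        (Fin.last r) (Finset.mem_univ _)
  have hhom : ∀ a, (f a).IsHomogeneous j := by
    intro a
    rw [hf]
    show (map (algebraMap R F) (fU k j N r a)).IsHomogeneous j
    refine IsHomogeneous.map ?_ _
    unfold fU
    by_cases h : (a : ℕ) < r
    · rw [if_pos h]
      have h1 : (lf (gP k) (N + 1) (a : ℕ)).IsHomogeneous 1 := by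
        unfold lf
        refine IsHomogeneous.sum _ _ _ fun s _ => ?_
        have := (isHomogeneous_C (Fin (N + 1)) (gP k (a : ℕ) (s : ℕ))).mul
          (isHomogeneous_X (MvPolynomial (ℕ × ℕ) k) s)
        rwa [zero_add] at this
      have := h1.pow j
      rwa [one_mul] at this
    · rw [if_neg h]
      have := (isHomogeneous_X (MvPolynomial (ℕ × ℕ) k) (Fin.last N)).pow j
      rwa [one_mul] at this
  have hfin : Module.Finite F (Gr.setPart f Finset.univ E) := Gr.finite_setPart hhom _ E
  refine (Submodule.finrank_mono hle).trans ?_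
  rw [← hFs]
  refine hP.trans ?_
  rw [hk]
  exact le_csSup (Gr.gen_bdd j E (r + 1)) ⟨Q k N r P, rfl⟩

end Pool.Agent.Helper42.HF
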